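import Pool.Agent.Helper1.LE.Defs

/-! # The local extension theorem for families -/

set_option autoImplicit false

open Set Filter Topology

namespace Pool.Agent.Helper90.LE

open Pool.Agent.Helper1.LE

/-! ### compactness -/

theorem compact_ev {κ X : Type} [TopologicalSpace X] {S : Set X} (hS : IsCompact S) {l : Filter κ}
    {P : κ × X → Prop} (h : ∀ x ∈ S, ∀ᶠ p in l ×ˢ 𝓝 x, P p) :
    ∃ N : Set X, IsOpen N ∧ S ⊆ N ∧ ∀ᶠ k in l, ∀ x ∈ N, P (k, x) := by
  refine hS.induction_on (p := fun s => ∃ N : Set X, IsOpen N ∧ s ⊆ N ∧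
    ∀ᶠ k in l, ∀ x ∈ N, P (k, x)) ?_ ?_ ?_ ?_
  · exact ⟨∅, isOpen_empty, Subset.rfl, by simp⟩
  · rintro s t hst ⟨N, hN, htN, h1⟩
    exact ⟨N, hN, hst.trans htN, h1⟩
  · rintro s t ⟨N, hN, hsN, h1⟩ ⟨N', hN', htN', h2⟩
    refine ⟨N ∪ N', hN.union hN', union_subset_union hsN htN', ?_⟩
    filter_upwards [h1, h2] with k hk1 hk2 x hx
    rcases hx with hx | hx
    · exact hk1 x hx
    · exact hk2 x hx
  · intro x hx
    have h1 := h x hx
    rw [Filter.eventually_prod_iff] at h1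
    obtain ⟨pa, ha, pb, hb, h1⟩ := h1
    obtain ⟨N, hNsub, hN, hxN⟩ := mem_nhds_iff.1 hb
    refine ⟨N, mem_nhdsWithin_of_mem_nhds (hN.mem_nhds hxN), N, hN, Subset.rfl, ?_⟩
    filter_upwards [ha] with k hk y hy
    exact h1 hk (hNsub hy)

/-! ### the theorem for one map in a finite-dimensional space -/

section E

variable {E : Type} [NormedAddCommGroup E] [NormedSpace ℝ E] [FiniteDimensional ℝ E]

/-- `T` is a good extension of `g` -/
def Good (C' P : Set E) (g : E → E) (ε : ℝ) (T : E ≃ₜ E) : Prop :=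
  (∀ x, ‖T x - x‖ ≤ ε) ∧ (∀ x, x ∉ P → T x = x) ∧ ∀ x ∈ C', T x = g x

theorem gridE (h : ∀ (ι : Type) [Fintype ι] [DecidableEq ι], S_Grid ι) {S C D N : Set E}
    (hS : IsCompact S) (hC : IsCompact C) (hCS : C ⊆ interior S) (hD : IsCompact D)
    (hN : IsOpen N) (hDN : D ⊆ N) :
    ∃ C' D' P : Set E, IsOpen C' ∧ C ⊆ C' ∧ IsOpen D' ∧ D ⊆ D' ∧ P ⊆ S ∧ Disjoint P D' ∧
      ∀ ε > 0, ∃ δ > 0, ∀ g : E → E, ContinuousOn g S → InjOn g S → (∀ x ∈ S, ‖g x - x‖ ≤ δ) →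
        (∀ x ∈ N ∩ S, g x = x) → ∃ T : E ≃ₜ E, Good C' P g ε T := by
  have hfr : Module.finrank ℝ E = Module.finrank ℝ (Fin (Module.finrank ℝ E) → ℝ) := by simp
  let L : E ≃L[ℝ] (Fin (Module.finrank ℝ E) → ℝ) := ContinuousLinearEquiv.ofFinrankEq hfr
  have himg : ∀ A : Set E, L '' A = L.symm ⁻¹' A := fun A => L.image_eq_preimage_symm A
  obtain ⟨C', D', P, h1, h2, h3, h4, h5, h6, h7⟩ := h (Fin (Module.finrank ℝ E)) (L '' S) (L '' C)
    (L '' D) (L '' N) (hS.image L.continuous) (hC.image L.continuous) (by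
      have e : interior (L '' S) = L '' interior S := (L.toHomeomorph.image_interior S).symm
      rw [e]
      exact image_mono hCS) (hD.image L.continuous) (L.toHomeomorph.isOpen_image.2 hN)
      (image_mono hDN)
  refine ⟨L ⁻¹' C', L ⁻¹' D', L ⁻¹' P, h1.preimage L.continuous, fun x hx => h2 ⟨x, hx, rfl⟩,
    h3.preimage L.continuous, fun x hx => h4 ⟨x, hx, rfl⟩, fun x hx => ?_, ?_, ?_⟩
  · obtain ⟨y, hy, hyx⟩ := h5 hx
    rwa [← L.injective hyx]
  · rw [Set.disjoint_left]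
    intro x hx hx'
    exact Set.disjoint_left.1 h6 hx hx'
  · intro ε hε
    set a : ℝ := ‖(L.symm : (Fin (Module.finrank ℝ E) → ℝ) →L[ℝ] E)‖ + 1 with ha
    set b : ℝ := ‖(L : E →L[ℝ] (Fin (Module.finrank ℝ E) → ℝ))‖ + 1 with hb
    have ha0 : 0 < a := by positivity
    have hb0 : 0 < b := by positivity
    have ha1 : ∀ y, ‖L.symm y‖ ≤ a * ‖y‖ := fun y => by
      have := (L.symm : (Fin (Module.finrank ℝ E) → ℝ) →L[ℝ] E).le_opNorm y
      refine this.trans ?_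
      gcongr
      linarith
    have hb1 : ∀ y, ‖L y‖ ≤ b * ‖y‖ := fun y => by
      have := (L : E →L[ℝ] (Fin (Module.finrank ℝ E) → ℝ)).le_opNorm y
      refine this.trans ?_
      gcongr
      linarith
    obtain ⟨δ, hδ, H⟩ := h7 (ε / a) (by positivity)
    refine ⟨δ / b, by positivity, fun g hgc hgi hgn hgN => ?_⟩
    have k1 : ContinuousOn (fun y => L (g (L.symm y))) (L '' S) := by
      refine L.continuous.comp_continuousOn (hgc.comp L.symm.continuous.continuousOn ?_)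
      rintro _ ⟨x, hx, rfl⟩
      rwa [L.symm_apply_apply]
    have k2 : InjOn (fun y => L (g (L.symm y))) (L '' S) := by
      rintro _ ⟨x, hx, rfl⟩ _ ⟨y, hy, rfl⟩ hxy
      simp only [L.symm_apply_apply] at hxy
      rw [hgi hx hy (L.injective hxy)]
    have k3 : ∀ x ∈ L '' S, ‖L (g (L.symm x)) - x‖ ≤ δ := by
      rintro _ ⟨x, hx, rfl⟩
      rw [L.symm_apply_apply, ← map_sub]
      refine (hb1 _).trans ?_
      calc b * ‖g x - x‖ ≤ b * (δ / b) := by gcongr; exact hgn x hx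
        _ = δ := by field_simp
    have k4 : ∀ x ∈ (L '' N) ∩ (L '' S), L (g (L.symm x)) = x := by
      rintro _ ⟨⟨x, hx, rfl⟩, ⟨y, hy, hyx⟩⟩
      have e : y = x := L.injective hyx
      subst e
      rw [L.symm_apply_apply, hgN y ⟨hx, hy⟩]
    obtain ⟨T, hT1, hT2, hT3⟩ := H (fun y => L (g (L.symm y))) ⟨k1, k2, k3⟩ k4
    refine ⟨L.toHomeomorph.trans (T.trans L.symm.toHomeomorph), fun x => ?_, fun x hx => ?_,
      fun x hx => ?_⟩
    · show ‖L.symm (T (L x)) - x‖ ≤ ε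
      have e : L.symm (T (L x)) - x = L.symm (T (L x) - L x) := by
        rw [map_sub, L.symm_apply_apply]
      rw [e]
      refine (ha1 _).trans ?_
      calc a * ‖T (L x) - L x‖ ≤ a * (ε / a) := by gcongr; exact hT1 _
        _ = ε := by field_simp
    · show L.symm (T (L x)) = x
      rw [hT2 (L x) hx, L.symm_apply_apply]
    · show L.symm (T (L x)) = g x
      rw [hT3 (L x) hx, L.symm_apply_apply, L.symm_apply_apply]

omit [NormedSpace ℝ E] [FiniteDimensional ℝ E] in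
/-- one homeomorphism which is good for all admissible `ε` -/
theorem choice (C' P : Set E) (g : E → E) : ∃ T : E ≃ₜ E, (∀ x, x ∉ P → T x = x) ∧
    ∀ ε : ℝ, 0 < ε → (∃ T' : E ≃ₜ E, Good C' P g ε T') →
      (∀ x, ‖T x - x‖ ≤ 2 * ε) ∧ ∀ x ∈ C', T x = g x := by
  by_cases h1 : ∃ ε : ℝ, 0 < ε ∧ ∃ T' : E ≃ₜ E, Good C' P g ε T'
  · by_cases h2 : ∀ ε : ℝ, 0 < ε → ∃ T' : E ≃ₜ E, Good C' P g ε T'
    · refine ⟨Homeomorph.refl E, fun x _ => rfl, fun ε hε _ => ⟨fun x => ?_, fun x hx => ?_⟩⟩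
      · have e : (Homeomorph.refl E) x - x = 0 := sub_self x
        rw [e, norm_zero]
        positivity
      · have h3 : ‖g x - x‖ ≤ 0 := by
          refine le_of_forall_pos_le_add fun ε hε => ?_
          obtain ⟨T', hT'⟩ := h2 ε hε
          rw [← hT'.2.2 x hx, zero_add]
          exact hT'.1 x
        have h4 : g x - x = 0 := norm_le_zero_iff.1 h3
        show x = g x
        rw [sub_eq_zero] at h4
        exact h4.symm
    · push Not at h2
      obtain ⟨ε₀, hε₀, hno⟩ := h2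
      set A : Set ℝ := {ε | 0 < ε ∧ ∃ T' : E ≃ₜ E, Good C' P g ε T'} with hA
      have hAne : A.Nonempty := h1
      have hlow : ∀ ε ∈ A, ε₀ ≤ ε := by
        rintro ε ⟨hε, T', hT'⟩
        by_contra hlt
        push Not at hlt
        exact hno T' ⟨fun x => (hT'.1 x).trans hlt.le, hT'.2⟩
      have hbdd : BddBelow A := ⟨ε₀, fun ε hε => hlow ε hε⟩
      have hinf : ε₀ ≤ sInf A := le_csInf hAne hlow
      obtain ⟨ε', hε'A, hε'⟩ := exists_lt_of_csInf_lt hAne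
        (show sInf A < 2 * sInf A by linarith)
      obtain ⟨hε'0, T, hT⟩ := hε'A
      refine ⟨T, hT.2.1, fun ε hε hex => ⟨fun x => ?_, hT.2.2⟩⟩
      have h3 : sInf A ≤ ε := csInf_le hbdd ⟨hε, hex⟩
      linarith [hT.1 x]
  · push Not at h1
    refine ⟨Homeomorph.refl E, fun x _ => rfl, fun ε hε ⟨T', hT'⟩ => absurd hT' (h1 ε hε T')⟩

end E

/-- P6: the local extension theorem for families -/
theorem fam (h : ∀ (ι : Type) [Fintype ι] [DecidableEq ι], S_Grid ι) : S_Fam := by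
  intro κ l E _ _ _ S C D hS hC hCS hD g hg1 hg2 hg3 hg4
  have hD0 : IsCompact (D ∩ S) := hS.inter_left hD
  obtain ⟨N, hN, hDN, hNg⟩ := compact_ev (P := fun p => g p.1 p.2 = p.2) hD0
    (fun y hy => hg4 y hy.1 hy.2)
  obtain ⟨C', D', P, h1, h2, h3, h4, h5, h6, h7⟩ := gridE h hS hC hCS hD0 hN hDN
  -- the maps are near the identity
  have hcont : ∀ᶠ k in l, ContinuousOn (g k) S := by
    obtain ⟨M, -, hSM, hM⟩ := compact_ev (P := fun p => ContinuousAt (g p.1) p.2) hS hg1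
    filter_upwards [hM] with k hk x hx
    exact (hk x (hSM hx)).continuousWithinAt
  have hnear : ∀ δ : ℝ, 0 < δ → ∀ᶠ k in l, ∀ x ∈ S, ‖g k x - x‖ ≤ δ := by
    intro δ hδ
    obtain ⟨M, -, hSM, hM⟩ := compact_ev (P := fun p => ‖g p.1 p.2 - p.2‖ ≤ δ) hS (by
      intro y hy
      have e1 : Tendsto (fun p : κ × E => g p.1 p.2 - p.2) (l ×ˢ 𝓝 y) (𝓝 (y - y)) :=
        (hg2 y hy).sub tendsto_snd
      rw [sub_self] at e1
      have e2 := e1.norm
      rw [norm_zero] at e2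
      exact (e2.eventually (gt_mem_nhds hδ)).mono fun p hp => le_of_lt hp)
    filter_upwards [hM] with k hk x hx
    exact hk x (hSM hx)
  have hinj : ∀ᶠ k in l, InjOn (g k) S := by
    obtain ⟨M, -, hSM, hM⟩ := compact_ev (X := E × E)
      (P := fun p => g p.1 p.2.1 = g p.1 p.2.2 → p.2.1 = p.2.2) (hS.prod hS) (by
      rintro ⟨y, y'⟩ ⟨hy, hy'⟩
      rw [nhds_prod_eq]
      by_cases hyy : y = y'
      · subst hyy
        exact hg3 y hy
      · have e1 : Tendsto (fun p : κ × E × E => g p.1 p.2.1) (l ×ˢ (𝓝 y ×ˢ 𝓝 y')) (𝓝 y) :=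
          (hg2 y hy).comp (tendsto_fst.prodMk (tendsto_fst.comp tendsto_snd))
        have e2 : Tendsto (fun p : κ × E × E => g p.1 p.2.2) (l ×ˢ (𝓝 y ×ˢ 𝓝 y')) (𝓝 y') :=
          (hg2 y' hy').comp (tendsto_fst.prodMk (tendsto_snd.comp tendsto_snd))
        have e3 := (e1.prodMk_nhds e2).eventually
          ((isOpen_ne_fun continuous_fst continuous_snd).mem_nhds
            (show (y, y') ∈ {q : E × E | q.1 ≠ q.2} from hyy))
        exact e3.mono fun p hp hp' => absurd hp' hp)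
    filter_upwards [hM] with k hk x hx y hy hxy
    exact hk (x, y) (hSM ⟨hx, hy⟩) hxy
  have hgood : ∀ ε : ℝ, 0 < ε → ∀ᶠ k in l, ∃ T' : E ≃ₜ E, Good C' P (g k) ε T' := by
    intro ε hε
    obtain ⟨δ, hδ, H⟩ := h7 ε hε
    filter_upwards [hcont, hnear δ hδ, hinj, hNg] with k k1 k2 k3 k4
    exact H (g k) k1 k3 k2 fun x hx => k4 x hx.1
  choose T hT1 hT2 using fun k => choice C' P (g k)
  have hTn : ∀ ε : ℝ, 0 < ε → ∀ᶠ k in l, ∀ x, ‖T k x - x‖ ≤ ε := by
    intro ε hε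
    filter_upwards [hgood (ε / 2) (by positivity)] with k hk x
    have := (hT2 k (ε / 2) (by positivity) hk).1 x
    linarith
  have hTg : ∀ᶠ k in l, ∀ x ∈ C', T k x = g k x := by
    filter_upwards [hgood 1 one_pos] with k hk
    exact (hT2 k 1 one_pos hk).2
  refine ⟨T, fun y => ?_, fun y => ?_, fun k y hy => hT1 k y fun hyP => hy (h5 hyP),
    fun y hy => ?_, fun y hy => ?_⟩
  · rw [Metric.tendsto_nhds]
    intro ε hε
    have e1 : ∀ᶠ p in l ×ˢ 𝓝 y, ∀ x, ‖T p.1 x - x‖ ≤ ε / 2 :=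
      tendsto_fst.eventually (hTn (ε / 2) (by positivity))
    have e2 : ∀ᶠ p : κ × E in l ×ˢ 𝓝 y, dist p.2 y < ε / 2 :=
      tendsto_snd.eventually (Metric.ball_mem_nhds y (by positivity))
    filter_upwards [e1, e2] with p hp1 hp2
    calc dist (T p.1 p.2) y ≤ dist (T p.1 p.2) p.2 + dist p.2 y := dist_triangle _ _ _
      _ < ε := by rw [dist_eq_norm]; linarith [hp1 p.2]
  · rw [Metric.tendsto_nhds]
    intro ε hε
    have e1 : ∀ᶠ p in l ×ˢ 𝓝 y, ∀ x, ‖T p.1 x - x‖ ≤ ε / 2 :=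
      tendsto_fst.eventually (hTn (ε / 2) (by positivity))
    have e2 : ∀ᶠ p : κ × E in l ×ˢ 𝓝 y, dist p.2 y < ε / 2 :=
      tendsto_snd.eventually (Metric.ball_mem_nhds y (by positivity))
    filter_upwards [e1, e2] with p hp1 hp2
    have e3 := hp1 ((T p.1).symm p.2)
    rw [Homeomorph.apply_symm_apply, norm_sub_rev] at e3
    calc dist ((T p.1).symm p.2) y ≤ dist ((T p.1).symm p.2) p.2 + dist p.2 y :=
          dist_triangle _ _ _
      _ < ε := by rw [dist_eq_norm]; linarith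
  · have e1 : ∀ᶠ p in l ×ˢ 𝓝 y, ∀ x ∈ C', T p.1 x = g p.1 x := tendsto_fst.eventually hTg
    have e2 : ∀ᶠ p : κ × E in l ×ˢ 𝓝 y, p.2 ∈ C' :=
      tendsto_snd.eventually (h1.mem_nhds (h2 hy))
    filter_upwards [e1, e2] with p hp1 hp2
    exact hp1 p.2 hp2
  · by_cases hyS : y ∈ S
    · have e2 : ∀ᶠ p : κ × E in l ×ˢ 𝓝 y, p.2 ∈ D' :=
        tendsto_snd.eventually (h3.mem_nhds (h4 ⟨hy, hyS⟩))
      filter_upwards [e2] with p hp
      exact hT1 p.1 p.2 fun hpP => Set.disjoint_left.1 h6 hpP hp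
    · have e2 : ∀ᶠ p : κ × E in l ×ˢ 𝓝 y, p.2 ∈ Sᶜ :=
        tendsto_snd.eventually (hS.isClosed.isOpen_compl.mem_nhds hyS)
      filter_upwards [e2] with p hp
      exact hT1 p.1 p.2 fun hpP => hp (h5 hpP)

end Pool.Agent.Helper90.LE
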