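import Pool.Agent.Helper1.LE.Defs

/-! # The relative local extension theorem for compact sets, from the handle lemma -/

set_option autoImplicit false

open Set Filter Topology

namespace Pool.Agent.Helper90.LE

open Pool.Agent.Helper1.LE

variable {ι : Type} [Fintype ι] [DecidableEq ι]

/-- the box around a lattice face -/
def bx (h : ℝ) (p : Finset ι × (ι → ℤ)) (η : ℝ) : Set (ι → ℝ) :=
  {x | (∀ i ∈ p.1, h * p.2 i ≤ x i ∧ x i ≤ h * p.2 i + h) ∧ ∀ i, i ∉ p.1 → |x i - h * p.2 i| ≤ η}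

/-- the centre of a lattice face -/
noncomputable def cc (h : ℝ) (p : Finset ι × (ι → ℤ)) : ι → ℝ :=
  fun i => if i ∈ p.1 then h * p.2 i + h / 2 else h * p.2 i

/-- the support of the straightening at a face -/
def pp (h : ℝ) (p : Finset ι × (ι → ℤ)) (η b : ℝ) : Set (ι → ℝ) :=
  {x | (∀ i ∈ p.1, |x i - cc h p i| < h / 2 - η) ∧ ∀ i, i ∉ p.1 → |x i - cc h p i| < b}

/-- the closed neighbourhood -/
def nb (r : ℝ) (C : Set (ι → ℝ)) : Set (ι → ℝ) := {x | ∃ y ∈ C, ‖x - y‖ ≤ r}

omit [Fintype ι] in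
lemma cc_pos {h : ℝ} {p : Finset ι × (ι → ℤ)} {i : ι} (hi : i ∈ p.1) :
    cc h p i = h * p.2 i + h / 2 := if_pos hi

omit [Fintype ι] in
lemma cc_neg {h : ℝ} {p : Finset ι × (ι → ℤ)} {i : ι} (hi : i ∉ p.1) :
    cc h p i = h * p.2 i := if_neg hi

omit [Fintype ι] in
lemma bx_eq (h : ℝ) (p : Finset ι × (ι → ℤ)) (η : ℝ) : bx h p η = Bx p.1 (cc h p) (h / 2) η := by
  ext x
  constructor
  · rintro ⟨h1, h2⟩
    refine ⟨fun i hi => ?_, fun i hi => ?_⟩
    · rw [cc_pos hi, abs_le]
      constructor <;> linarith [(h1 i hi).1, (h1 i hi).2]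
    · rw [cc_neg hi]; exact h2 i hi
  · rintro ⟨h1, h2⟩
    refine ⟨fun i hi => ?_, fun i hi => ?_⟩
    · have := h1 i hi
      rw [cc_pos hi, abs_le] at this
      constructor <;> linarith [this.1, this.2]
    · have := h2 i hi
      rwa [cc_neg hi] at this

omit [Fintype ι] [DecidableEq ι] in
lemma bx_mono {h : ℝ} {p : Finset ι × (ι → ℤ)} {η η' : ℝ} (hη : η' ≤ η) :
    bx h p η' ⊆ bx h p η := fun _ hx => ⟨hx.1, fun i hi => (hx.2 i hi).trans hη⟩

omit [Fintype ι] in
lemma pp_sub {h : ℝ} {p : Finset ι × (ι → ℤ)} {η b : ℝ} (hη : 0 ≤ η) :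
    pp h p η b ⊆ bx h p b := by
  rw [bx_eq]
  rintro x ⟨h1, h2⟩
  exact ⟨fun i hi => by linarith [h1 i hi], fun i hi => (h2 i hi).le⟩

lemma int_le {h : ℝ} (hh : 0 < h) {a b : ℤ} (H : h * (a : ℝ) < h * b + h) : a ≤ b := by
  have h1 : h * (a : ℝ) < h * ((b : ℝ) + 1) := by linarith
  have h2 := lt_of_mul_lt_mul_left h1 hh.le
  exact Int.lt_add_one_iff.mp (by exact_mod_cast h2)

/-- `p` is a face of `q` -/
def Fa (p q : Finset ι × (ι → ℤ)) : Prop :=
  p.1 ⊆ q.1 ∧ (∀ i ∈ p.1, p.2 i = q.2 i) ∧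
    (∀ i ∈ q.1, i ∉ p.1 → p.2 i = q.2 i ∨ p.2 i = q.2 i + 1) ∧ ∀ i, i ∉ q.1 → p.2 i = q.2 i

omit [Fintype ι] in
lemma key {h η b : ℝ} (hh : 0 < h) (hη0 : 0 < η) (hη : η < h / 4) (hb : b ≤ η)
    {p q : Finset ι × (ι → ℤ)} {x : ι → ℝ} (hx : x ∈ pp h p η b) (hx' : x ∈ bx h q η) :
    Fa p q := by
  obtain ⟨h1, h2⟩ := hx
  obtain ⟨k1, k2⟩ := hx'
  have a1 : ∀ i ∈ p.1, h * p.2 i + η < x i ∧ x i < h * p.2 i + h - η := by
    intro i hi
    have := h1 i hi
    rw [cc_pos hi, abs_lt] at this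
    constructor <;> linarith [this.1, this.2]
  have a2 : ∀ i, i ∉ p.1 → h * p.2 i - h / 4 < x i ∧ x i < h * p.2 i + h / 4 := by
    intro i hi
    have := h2 i hi
    rw [cc_neg hi, abs_lt] at this
    constructor <;> linarith [this.1, this.2]
  have a3 : ∀ i, i ∉ q.1 → h * q.2 i - η ≤ x i ∧ x i ≤ h * q.2 i + η := by
    intro i hi
    have := k2 i hi
    rw [abs_le] at this
    constructor <;> linarith [this.1, this.2]
  have hsub : p.1 ⊆ q.1 := by
    intro i hi
    by_contra hq
    have b1 := a1 i hi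
    have b2 := a3 i hq
    have c1 : q.2 i ≤ p.2 i := int_le hh (by linarith)
    have c2 : p.2 i < q.2 i := by
      have : h * (p.2 i : ℝ) < h * q.2 i := by linarith
      exact_mod_cast lt_of_mul_lt_mul_left this hh.le
    exact absurd c2 (not_lt.2 c1)
  refine ⟨hsub, fun i hi => ?_, fun i hi hi' => ?_, fun i hi => ?_⟩
  · have b1 := a1 i hi
    have b2 := k1 i (hsub hi)
    exact le_antisymm (int_le hh (by linarith)) (int_le hh (by linarith))
  · have b1 := a2 i hi'
    have b2 := k1 i hi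
    have c1 : q.2 i ≤ p.2 i := int_le hh (by linarith)
    have c2 : p.2 i ≤ q.2 i + 1 := by
      have : h * (p.2 i : ℝ) < h * ((q.2 i + 1 : ℤ) : ℝ) + h := by
        push_cast
        linarith
      exact int_le hh this
    omega
  · have hi' : i ∉ p.1 := fun hp => hi (hsub hp)
    have b1 := a2 i hi'
    have b2 := a3 i hi
    exact le_antisymm (int_le hh (by linarith)) (int_le hh (by linarith))

omit [Fintype ι] [DecidableEq ι] in
lemma fa_sub {h : ℝ} (hh : 0 < h) {p q : Finset ι × (ι → ℤ)} (hf : Fa p q) :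
    bx h p 0 ⊆ bx h q 0 := by
  obtain ⟨f1, f2, f3, f4⟩ := hf
  rintro x ⟨h1, h2⟩
  refine ⟨fun i hi => ?_, fun i hi => ?_⟩
  · by_cases hp : i ∈ p.1
    · rw [← f2 i hp]; exact h1 i hp
    · have := h2 i hp
      have e : x i = h * p.2 i := by
        have := abs_nonpos_iff.1 this
        linarith
      rw [e]
      rcases f3 i hi hp with e2 | e2
      · rw [e2]; constructor <;> linarith
      · rw [e2]; push_cast; constructor <;> linarith
  · have := h2 i (fun hp => hi (f1 hp))
    rwa [f4 i hi] at this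

omit [Fintype ι] [DecidableEq ι] in
lemma fa_eq {p q : Finset ι × (ι → ℤ)} (hf : Fa p q) (hc : q.1.card ≤ p.1.card) : p = q := by
  obtain ⟨f1, f2, f3, f4⟩ := hf
  have e : p.1 = q.1 := Finset.eq_of_subset_of_card_le f1 hc
  refine Prod.ext e (funext fun i => ?_)
  by_cases hi : i ∈ p.1
  · exact f2 i hi
  · exact f4 i (by rwa [← e])

/-- moving a point of the box to the face -/
lemma near_face {h : ℝ} {p : Finset ι × (ι → ℤ)} {η : ℝ} (hη : 0 ≤ η) {x : ι → ℝ}
    (hx : x ∈ bx h p η) : ∃ y ∈ bx h p 0, ‖x - y‖ ≤ η := by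
  refine ⟨fun i => if i ∈ p.1 then x i else h * p.2 i, ⟨fun i hi => ?_, fun i hi => ?_⟩, ?_⟩
  · simp only [if_pos hi]; exact hx.1 i hi
  · simp only [if_neg hi]; simp
  · rw [pi_norm_le_iff_of_nonneg hη]
    intro i
    rw [Pi.sub_apply, Real.norm_eq_abs]
    by_cases hi : i ∈ p.1
    · simp only [if_pos hi]; simpa using hη
    · simp only [if_neg hi]; exact hx.2 i hi

omit [DecidableEq ι] in
lemma diam_face {h : ℝ} (hh : 0 < h) {p : Finset ι × (ι → ℤ)} {x y : ι → ℝ} (hx : x ∈ bx h p 0)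
    (hy : y ∈ bx h p 0) : ‖x - y‖ ≤ h := by
  rw [pi_norm_le_iff_of_nonneg hh.le]
  intro i
  rw [Pi.sub_apply, Real.norm_eq_abs, abs_le]
  by_cases hi : i ∈ p.1
  · have h1 := hx.1 i hi
    have h2 := hy.1 i hi
    constructor <;> linarith [h1.1, h1.2, h2.1, h2.2]
  · have h1 := abs_nonpos_iff.1 (hx.2 i hi)
    have h2 := abs_nonpos_iff.1 (hy.2 i hi)
    constructor <;> linarith

omit [Fintype ι] [DecidableEq ι] in
lemma vertex_mem {h : ℝ} (hh : 0 < h) (p : Finset ι × (ι → ℤ)) :
    (fun i => h * (p.2 i : ℝ)) ∈ bx h p 0 := by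
  refine ⟨fun i _ => ⟨le_rfl, by linarith⟩, fun i _ => by simp⟩

lemma bx_sub_nb {h : ℝ} {p : Finset ι × (ι → ℤ)} {η : ℝ} (hη0 : 0 ≤ η) (hη : η ≤ h)
    {C : Set (ι → ℝ)} (hC : bx h p 0 ⊆ nb (2 * h) C) : bx h p η ⊆ nb (3 * h) C := by
  intro x hx
  obtain ⟨y, hy, hxy⟩ := near_face hη0 hx
  obtain ⟨c, hc, hyc⟩ := hC hy
  refine ⟨c, hc, ?_⟩
  calc ‖x - c‖ = ‖(x - y) + (y - c)‖ := by congr 1; abel
    _ ≤ ‖x - y‖ + ‖y - c‖ := norm_add_le _ _
    _ ≤ 3 * h := by linarith

/-- the support of a face which is not near `D` is disjoint from a neighbourhood of `D` -/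
lemma pp_disj {h η b : ℝ} (hh : 0 < h) (hη0 : 0 < η) (hη : η < h / 4) (hb0 : 0 < b) (hb : b ≤ η)
    {p : Finset ι × (ι → ℤ)} {D : Set (ι → ℝ)} (hp : ¬ bx h p 0 ⊆ nb (2 * h) D) :
    Disjoint (pp h p η b) (Metric.thickening (h / 2) D) := by
  rw [Set.disjoint_left]
  intro x hx hxD
  apply hp
  obtain ⟨d, hd, hxd⟩ := Metric.mem_thickening_iff.1 hxD
  rw [dist_eq_norm] at hxd
  obtain ⟨y, hy, hxy⟩ := near_face hb0.le (pp_sub hη0.le hx)
  intro w hw
  refine ⟨d, hd, ?_⟩
  have h1 := diam_face hh hw hy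
  calc ‖w - d‖ = ‖(w - y) + (y - x) + (x - d)‖ := by congr 1; abel
    _ ≤ ‖w - y‖ + ‖y - x‖ + ‖x - d‖ := norm_add₃_le
    _ ≤ 2 * h := by rw [norm_sub_rev y x]; linarith

omit [DecidableEq ι] in
/-- the faces near a bounded set are finite in number -/
lemma fin_faces {h : ℝ} (hh : 0 < h) {C : Set (ι → ℝ)} (hC : IsCompact C) :
    {p : Finset ι × (ι → ℤ) | bx h p 0 ⊆ nb (2 * h) C}.Finite := by
  obtain ⟨R, hR⟩ := hC.isBounded.exists_norm_le
  obtain ⟨M, hM⟩ := exists_nat_gt ((R + 2 * h) / h)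
  have hfin : (Set.univ ×ˢ Set.pi Set.univ (fun _ : ι => Set.Icc (-(M : ℤ)) M) :
      Set (Finset ι × (ι → ℤ))).Finite :=
    Set.finite_univ.prod (Set.Finite.pi fun _ => Set.finite_Icc _ _)
  refine hfin.subset fun p hp => ⟨mem_univ _, fun i _ => ?_⟩
  obtain ⟨c, hc, hvc⟩ := hp (vertex_mem hh p)
  have h1 := hR c hc
  have h2 := (norm_le_pi_norm (((fun i => h * (p.2 i : ℝ)) : ι → ℝ) - c) i).trans hvc
  have h3 := (norm_le_pi_norm c i).trans h1
  rw [Pi.sub_apply, Real.norm_eq_abs, abs_le] at h2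
  rw [Real.norm_eq_abs, abs_le] at h3
  rw [div_lt_iff₀ hh] at hM
  have e1 : -(M : ℝ) < p.2 i := by
    have : h * (-(M : ℝ)) < h * p.2 i := by nlinarith [h2.1, h3.1]
    exact lt_of_mul_lt_mul_left this hh.le
  have e2 : (p.2 i : ℝ) < M := by
    have : h * (p.2 i : ℝ) < h * M := by nlinarith [h2.2, h3.2]
    exact lt_of_mul_lt_mul_left this hh.le
  constructor
  · have : -(M : ℤ) < p.2 i := by exact_mod_cast e1
    exact this.le
  · have : p.2 i < (M : ℤ) := by exact_mod_cast e2
    exact this.le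

/-! ### straightening -/

omit [DecidableEq ι] in
lemma str_mono {S A B B₁ P : Set (ι → ℝ)} (h : Str S A B P) (hB : B₁ ⊆ B) : Str S A B₁ P := by
  intro ε hε
  obtain ⟨δ, hδ, H⟩ := h ε hε
  refine ⟨δ, hδ, fun g hg hA => ?_⟩
  obtain ⟨T, h1, h2, h3⟩ := H g hg hA
  exact ⟨T, h1, h2, fun x hx => h3 x (hB hx)⟩

omit [DecidableEq ι] in
/-- keeping what is already straight -/
lemma str_keep {S S' A B B' P : Set (ι → ℝ)} (h : Str S' A B' P) (hS : S' ⊆ S) (hA : A ⊆ B)
    (hd : Disjoint P B) : Str S B (B ∪ B') P := by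
  intro ε hε
  obtain ⟨δ, hδ, H⟩ := h ε hε
  refine ⟨δ, hδ, fun g hg hB => ?_⟩
  obtain ⟨T, h1, h2, h3⟩ := H g ⟨hg.1.mono hS, hg.2.1.mono hS, fun x hx => hg.2.2 x (hS hx)⟩
    (fun x hx => hB x (hA hx))
  refine ⟨T, h1, h2, fun x hx => ?_⟩
  rcases hx with hx | hx
  · rw [h2 x (Set.disjoint_right.1 hd hx), hB x hx]
  · exact h3 x hx

/-- the set which is straight after the step `k` -/
def St (h : ℝ) (G U : Set (Finset ι × (ι → ℤ))) (k : ℕ) (η : ℝ) : Set (ι → ℝ) :=
  {x | ∃ p ∈ G, (p.1.card < k ∨ p ∈ U) ∧ x ∈ bx h p η}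

/-- P5: the relative local extension theorem for compact sets -/
theorem grid (h1 : S_StrComp ι) (h2 : S_HLbox ι) : S_Grid ι := by
  intro S C D N hS hC hCS hD hN hDN
  -- the mesh
  obtain ⟨r₁, hr₁, hr₁S⟩ := hC.exists_cthickening_subset_open isOpen_interior hCS
  obtain ⟨r₂, hr₂, hr₂N⟩ := hD.exists_cthickening_subset_open hN hDN
  set h : ℝ := min r₁ r₂ / 3 with hh'
  have hh : 0 < h := by
    have : 0 < min r₁ r₂ := lt_min hr₁ hr₂
    positivity
  have hnb : ∀ (r : ℝ) (C : Set (ι → ℝ)), 3 * h ≤ r → nb (3 * h) C ⊆ Metric.cthickening r C := by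
    rintro r C hr x ⟨c, hc, hxc⟩
    exact Metric.mem_cthickening_of_dist_le x c r C hc (by rw [dist_eq_norm]; linarith)
  have hCnb : nb (3 * h) C ⊆ S := (hnb r₁ C (by
    have := min_le_left r₁ r₂; rw [hh']; linarith)).trans (hr₁S.trans interior_subset)
  have hDnb : nb (3 * h) D ⊆ N := (hnb r₂ D (by
    have := min_le_right r₁ r₂; rw [hh']; linarith)).trans hr₂N
  set G : Set (Finset ι × (ι → ℤ)) := {p | bx h p 0 ⊆ nb (2 * h) C} with hG
  set U : Set (Finset ι × (ι → ℤ)) := {p | bx h p 0 ⊆ nb (2 * h) D} with hU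
  have hGfin : G.Finite := fin_faces hh hC
  have hGS : ∀ p ∈ G, ∀ η : ℝ, 0 ≤ η → η ≤ h → bx h p η ⊆ S :=
    fun p hp η h0 h1 => (bx_sub_nb h0 h1 hp).trans hCnb
  have hUN : ∀ p ∈ U, ∀ η : ℝ, 0 ≤ η → η ≤ h → bx h p η ⊆ N :=
    fun p hp η h0 h1 => (bx_sub_nb h0 h1 hp).trans hDnb
  have hStS : ∀ (k : ℕ) (η : ℝ), 0 ≤ η → η ≤ h → St h G U k η ⊆ S := by
    rintro k η h0 h1 x ⟨p, hp, -, hx⟩
    exact hGS p hp η h0 h1 hx
  -- the condition on the support
  let Ok : Set (ι → ℝ) → Prop := fun P => P ⊆ S ∧ Disjoint P (Metric.thickening (h / 2) D)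
  have main : ∀ k : ℕ, ∃ η : ℝ, 0 < η ∧ η < h / 4 ∧ ∃ P, Ok P ∧ Str S (N ∩ S) (St h G U k η) P := by
    intro k
    induction k with
    | zero =>
      refine ⟨h / 8, by positivity, by linarith, ∅, ⟨empty_subset _, disjoint_bot_left⟩, ?_⟩
      intro ε hε
      refine ⟨1, one_pos, fun g _ hg => ⟨Homeomorph.refl _, fun x => ?_, fun x _ => rfl,
        fun x hx => ?_⟩⟩
      · simpa using hε.le
      · obtain ⟨p, hp, hp2, hx⟩ := hx
        have hpU : p ∈ U := hp2.resolve_left (Nat.not_lt_zero _)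
        exact (hg x ⟨hUN p hpU (h / 8) (by positivity) (by linarith) hx,
          hGS p hp (h / 8) (by positivity) (by linarith) hx⟩).symm
    | succ k ih =>
      obtain ⟨η, hη0, hη, P, hP, hstr⟩ := ih
      have hW : 1 ≤ 2 * WW ι := by
        unfold WW
        have : (0 : ℝ) ≤ Fintype.card ι := Nat.cast_nonneg _
        linarith
      set η' : ℝ := η / (2 * WW ι) with hη'
      have hη'0 : 0 < η' := by positivity
      have hη'le : η' ≤ η := div_le_self hη0.le hW
      -- the faces of dimension `k`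
      have step : ∀ t : Finset (Finset ι × (ι → ℤ)), (∀ p ∈ t, p ∈ G ∧ p ∉ U ∧ p.1.card = k) →
          ∃ P, Ok P ∧ Str S (N ∩ S) (St h G U k η ∪ {x | ∃ p ∈ t, x ∈ bx h p η'}) P := by
        intro t
        induction t using Finset.induction_on with
        | empty =>
          intro _
          exact ⟨P, hP, str_mono hstr (by
            rintro x (hx | ⟨p, hp, -⟩)
            · exact hx
            · simp at hp)⟩
        | insert p t hpt iht =>
          intro ht
          obtain ⟨Q, hQ, hQstr⟩ := iht fun q hq => ht q (Finset.mem_insert_of_mem hq)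
          obtain ⟨hpG, hpU, hpk⟩ := ht p (Finset.mem_insert_self _ _)
          set B : Set (ι → ℝ) := St h G U k η ∪ {x | ∃ p ∈ t, x ∈ bx h p η'} with hB
          have hbox := h2 p.1 (cc h p) h η η hη0 (by linarith) hη0
          rw [← bx_eq, ← bx_eq, ← hη'] at hbox
          have hBS : B ⊆ S := by
            rintro x (hx | ⟨q, hq, hx⟩)
            · exact hStS k η hη0.le (by linarith) hx
            · exact hGS q (ht q (Finset.mem_insert_of_mem hq)).1 η' hη'0.le (by linarith) hx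
          have hends : {x | x ∈ bx h p η ∧ ∃ i ∈ p.1, h / 2 - η ≤ |x i - cc h p i|} ⊆ B := by
            rintro x ⟨hx, i, hi, hxi⟩
            left
            have hxi' := hx.1 i hi
            rw [cc_pos hi, le_abs] at hxi
            -- the smaller face
            have hz : ∃ e : ℤ, (e = 0 ∨ e = 1) ∧ |x i - h * ((p.2 i + e : ℤ) : ℝ)| ≤ η := by
              rcases hxi with hxi | hxi
              · refine ⟨1, Or.inr rfl, ?_⟩
                rw [abs_le]
                push_cast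
                constructor <;> linarith [hxi'.1, hxi'.2]
              · refine ⟨0, Or.inl rfl, ?_⟩
                rw [abs_le]
                push_cast
                constructor <;> linarith [hxi'.1, hxi'.2]
            obtain ⟨e, he, hxe⟩ := hz
            set q : Finset ι × (ι → ℤ) := (p.1.erase i, Function.update p.2 i (p.2 i + e)) with hq
            have hfa : Fa q p := by
              refine ⟨Finset.erase_subset _ _, fun j hj => ?_, fun j hj hj' => ?_, fun j hj => ?_⟩
              · exact Function.update_of_ne (Finset.ne_of_mem_erase hj) _ _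
              · have hji : j = i := by
                  by_contra hne
                  exact hj' (Finset.mem_erase.2 ⟨hne, hj⟩)
                subst hji
                show Function.update p.2 j (p.2 j + e) j = p.2 j ∨
                  Function.update p.2 j (p.2 j + e) j = p.2 j + 1
                rw [Function.update_self]
                rcases he with rfl | rfl
                · left; simp
                · right; rfl
              · have hji : j ≠ i := fun hji => hj (hji ▸ hi)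
                exact Function.update_of_ne hji _ _
            refine ⟨q, (fa_sub hh hfa).trans hpG, Or.inl ?_, ?_, ?_⟩
            · rw [hq, ← hpk]
              exact Finset.card_erase_lt_of_mem hi
            · intro j hj
              have hji : j ≠ i := Finset.ne_of_mem_erase hj
              have e1 : q.2 j = p.2 j := Function.update_of_ne hji _ _
              rw [e1]
              exact hx.1 j (Finset.mem_of_mem_erase hj)
            · intro j hj
              by_cases hji : j = i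
              · subst hji
                have e1 : q.2 j = p.2 j + e := Function.update_self _ _ _
                rw [e1]
                exact hxe
              · have e1 : q.2 j = p.2 j := Function.update_of_ne hji _ _
                rw [e1]
                exact hx.2 j fun hjp => hj (Finset.mem_erase.2 ⟨hji, hjp⟩)
          have hdisj : Disjoint (pp h p η η) B := by
            rw [Set.disjoint_left]
            intro x hx hxB
            have hq : ∃ q, x ∈ bx h q η ∧ q ∈ G ∧ (q ∈ U ∨ (q.1.card ≤ p.1.card ∧ q ≠ p)) := by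
              rcases hxB with ⟨q, hq, hq2, hxq⟩ | ⟨q, hq, hxq⟩
              · refine ⟨q, hxq, hq, ?_⟩
                rcases hq2 with hq2 | hq2
                · right
                  rw [hpk]
                  refine ⟨hq2.le, fun e => ?_⟩
                  rw [e, hpk] at hq2
                  exact lt_irrefl _ hq2
                · exact Or.inl hq2
              · refine ⟨q, bx_mono hη'le hxq, (ht q (Finset.mem_insert_of_mem hq)).1, Or.inr ?_⟩
                rw [hpk, (ht q (Finset.mem_insert_of_mem hq)).2.2]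
                exact ⟨le_rfl, fun e => hpt (e ▸ hq)⟩
            obtain ⟨q, hxq, hqG, hq2⟩ := hq
            have hfa : Fa p q := key hh hη0 hη le_rfl hx hxq
            rcases hq2 with hq2 | ⟨hq2, hq3⟩
            · exact hpU ((fa_sub hh hfa).trans hq2)
            · exact hq3 (fa_eq hfa hq2).symm
          have hstr2 : Str S B (B ∪ bx h p η') (pp h p η η) :=
            str_keep hbox (hGS p hpG η hη0.le (by linarith)) hends hdisj
          have hstr3 := h1 S (N ∩ S) B Q B (B ∪ bx h p η') (pp h p η η) inter_subset_right hBS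
            hQstr hstr2 (fun x hx => Or.inl hx)
          refine ⟨Q ∪ pp h p η η, ⟨union_subset hQ.1 ?_, ?_⟩, str_mono hstr3 ?_⟩
          · exact (pp_sub hη0.le).trans (hGS p hpG η hη0.le (by linarith))
          · exact Set.disjoint_union_left.2 ⟨hQ.2, pp_disj hh hη0 hη hη0 le_rfl hpU⟩
          · rintro x (hx | ⟨q, hq, hx⟩)
            · exact Or.inl (Or.inl hx)
            · rcases Finset.mem_insert.1 hq with rfl | hq
              · exact Or.inr hx
              · exact Or.inl (Or.inr ⟨q, hq, hx⟩)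
      have hfin : {p | p ∈ G ∧ p ∉ U ∧ p.1.card = k}.Finite := hGfin.subset fun p hp => hp.1
      obtain ⟨P', hP', hstr'⟩ := step hfin.toFinset fun p hp => (hfin.mem_toFinset.1 hp)
      refine ⟨η', hη'0, by linarith, P', hP', str_mono hstr' ?_⟩
      rintro x ⟨p, hp, hp2, hx⟩
      by_cases hpU : p ∈ U
      · exact Or.inl ⟨p, hp, Or.inr hpU, bx_mono hη'le hx⟩
      · have hlt := hp2.resolve_right hpU
        rcases Nat.lt_succ_iff_lt_or_eq.1 hlt with hlt | heq
        · exact Or.inl ⟨p, hp, Or.inl hlt, bx_mono hη'le hx⟩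
        · exact Or.inr ⟨p, hfin.mem_toFinset.2 ⟨hp, hpU, heq⟩, hx⟩
  obtain ⟨η, hη0, hη, P, hP, hstr⟩ := main (Fintype.card ι + 1)
  refine ⟨Metric.thickening h C, Metric.thickening (h / 2) D, P, Metric.isOpen_thickening,
    Metric.self_subset_thickening hh C, Metric.isOpen_thickening,
    Metric.self_subset_thickening (by positivity) D, hP.1, hP.2, str_mono hstr ?_⟩
  intro x hx
  obtain ⟨c, hc, hxc⟩ := Metric.mem_thickening_iff.1 hx
  rw [dist_eq_norm] at hxc
  set p : Finset ι × (ι → ℤ) := (Finset.univ, fun i => ⌊x i / h⌋) with hp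
  have hx0 : x ∈ bx h p 0 := by
    refine ⟨fun i _ => ?_, fun i hi => absurd (Finset.mem_univ i) hi⟩
    have a1 := Int.floor_le (x i / h)
    have a2 := Int.lt_floor_add_one (x i / h)
    have e1 : x i = h * (x i / h) := by field_simp
    constructor
    · show h * ((⌊x i / h⌋ : ℤ) : ℝ) ≤ x i
      calc h * ((⌊x i / h⌋ : ℤ) : ℝ) ≤ h * (x i / h) := by gcongr
        _ = x i := e1.symm
    · show x i ≤ h * ((⌊x i / h⌋ : ℤ) : ℝ) + h
      calc x i = h * (x i / h) := e1
        _ ≤ h * ((⌊x i / h⌋ : ℤ) + 1) := by gcongr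
        _ = h * ((⌊x i / h⌋ : ℤ) : ℝ) + h := by ring
  refine ⟨p, ?_, Or.inl ?_, bx_mono hη0.le hx0⟩
  · intro y hy
    refine ⟨c, hc, ?_⟩
    have h1 := diam_face hh hy hx0
    calc ‖y - c‖ = ‖(y - x) + (x - c)‖ := by congr 1; abel
      _ ≤ ‖y - x‖ + ‖x - c‖ := norm_add_le _ _
      _ ≤ 2 * h := by linarith
  · exact Nat.lt_succ_of_le (Finset.card_le_univ _)

end Pool.Agent.Helper90.LE
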